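import Pool.Agent.H943R4.BA.CoverBA
import Pool.Agent.H943R4.BA.NotNullBA
import Pool.Agent.H943R4.BA.Hard

/-!
# How many oracles make the hierarchy of bounded formulas collapse?

For every gauge `f` the following are equivalent: for every `ε > 0` there are infinitely many `N`
with `f N ≤ 2 ^ ((log N) ^ ε)`; the oracles `A` with `Σᵇ_(n+1)(A) = Σᵇ_n(A)` are a null set for
`f` (for any fixed `n`); the oracles for which the hierarchy of the bounded formulas collapses are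
a null set for `f`; the oracles for which every bounded formula is equivalent to an atomic formula
`A(t)` are a null set for `f`.
-/

namespace Pool.Agent.Results.MP_cf4427_lc.GaugeFormulaHierarchy

open Pool.Agent.H943R4.BA

theorem result (f : ℕ → ℝ) :
    (∀ O : Set (ℕ → Bool),
      (∀ A : ℕ → Bool, (∀ φ : Fm, ∃ t : Tm, Eqv A φ (.ora t)) → A ∈ O) →
      (∀ A ∈ O, ∃ n, ∀ φ, Lv (n + 1) true φ → ∃ ψ, Lv n true ψ ∧ Eqv A φ ψ) →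
      (Null f O ↔
        ∀ ε : ℝ, 0 < ε → ∃ᶠ N : ℕ in Filter.atTop, f N ≤ 2 ^ (Real.logb 2 N) ^ ε)) ∧
    (Null f {A : ℕ → Bool | ∃ n, ∀ φ, ∃ ψ, Lv n true ψ ∧ Eqv A φ ψ} ↔
      ∀ ε : ℝ, 0 < ε → ∃ᶠ N : ℕ in Filter.atTop, f N ≤ 2 ^ (Real.logb 2 N) ^ ε) ∧
    (∀ n : ℕ, (Null f {A : ℕ → Bool |
        ∀ φ, Lv (n + 1) true φ → ∃ ψ, Lv n true ψ ∧ Eqv A φ ψ} ↔
      ∀ ε : ℝ, 0 < ε → ∃ᶠ N : ℕ in Filter.atTop, f N ≤ 2 ^ (Real.logb 2 N) ^ ε)) ∧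
    (Null f {A : ℕ → Bool | ∀ φ : Fm, ∃ t : Tm, Eqv A φ (.ora t)} ↔
      ∀ ε : ℝ, 0 < ε → ∃ᶠ N : ℕ in Filter.atTop, f N ≤ 2 ^ (Real.logb 2 N) ^ ε) := by
  have key : ∀ O : Set (ℕ → Bool),
      (∀ A : ℕ → Bool, (∀ φ : Fm, ∃ t : Tm, Eqv A φ (.ora t)) → A ∈ O) →
      (∀ A ∈ O, ∃ n, ∀ φ, Lv (n + 1) true φ → ∃ ψ, Lv n true ψ ∧ Eqv A φ ψ) →
      (Null f O ↔
        ∀ ε : ℝ, 0 < ε → ∃ᶠ N : ℕ in Filter.atTop, f N ≤ 2 ^ (Real.logb 2 N) ^ ε) := by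
    intro O h1 h2
    constructor
    · intro hn ε hε
      by_contra hcon
      rw [Filter.not_frequently] at hcon
      exact not_null_side f ε hε (hcon.mono fun N h => not_le.1 h) O h1 hn
    · intro hf
      refine null_side f hf O fun A hA => ?_
      obtain ⟨n, hn⟩ := h2 A hA
      obtain ⟨ψ, hψ, he⟩ := hn _ (hardF_lv n)
      exact ⟨n, ψ, hψ, he⟩
  have hat : ∀ A : ℕ → Bool, (∀ φ : Fm, ∃ t : Tm, Eqv A φ (.ora t)) →
      ∀ (n : ℕ) (φ : Fm), ∃ ψ, Lv n true ψ ∧ Eqv A φ ψ := by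
    intro A hA n φ
    obtain ⟨t, ht⟩ := hA φ
    exact ⟨.ora t, Lv.ora n true t, ht⟩
  refine ⟨key, key _ ?_ ?_, fun n => key _ ?_ ?_, key _ ?_ ?_⟩
  · intro A hA
    exact ⟨0, hat A hA 0⟩
  · rintro A ⟨n, hn⟩
    exact ⟨n, fun φ _ => hn φ⟩
  · intro A hA φ _
    exact hat A hA n φ
  · intro A hA
    exact ⟨n, hA⟩
  · intro A hA
    exact hA
  · intro A hA
    exact ⟨0, fun φ _ => hat A hA 0 φ⟩

end Pool.Agent.Results.MP_cf4427_lc.GaugeFormulaHierarchy
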